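import Pool.Agent.helper99.ZQ.Spec

/-! # zq: row FN4 -/

set_option autoImplicit false

open Finset
open Pool.Agent.helper32.Cant
open Pool.Agent.GA (nrm chi ch St sg flp Psi rc ph pot rpot far nc gf ncs gfs good mj om pick pat et kap mult)
open Pool.Agent.ZR
open Pool.Agent.ZP
open scoped ENNReal

namespace Pool.Agent.ZQ

theorem FN4_mono (ψ : ℕ → ℝ≥0∞) {E E' : Set (ℝ × ℝ)} (h : E ⊆ E') : cont2 ψ E ≤ cont2 ψ E' := by
  unfold cont2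
  refine le_iInf₂ fun A hA => ?_
  exact iInf₂_le A fun s hs => hA s (h hs)

theorem FN4_Lb_mono (U : Set (ℝ × ℝ)) (x r : ℝ) {δ δ' : ℝ} (h : δ' ≤ δ) : Lb U δ x r ⊆ Lb U δ' x r :=
  fun _ hc q h1 h2 => hc q (h1.trans_le h) (h2.trans_le h)

theorem FN4_Lb_step (U : Set (ℝ × ℝ)) (x r : ℝ) (i : ℕ) :
    Lb U (1 / ((i : ℝ) + 1)) x r ⊆ Lb U (1 / (((i + 1 : ℕ) : ℝ) + 1)) x r := by
  refine FN4_Lb_mono U x r ?_
  push_cast
  exact one_div_le_one_div_of_le (by positivity) (by linarith)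

theorem FN4_sub {D U : Set (ℝ × ℝ)} (hDU : D ⊆ U) (hU : IsOpen U) (x r : ℝ) :
    Ln D x r ⊆ ⋃ i : ℕ, Lb U (1 / ((i : ℝ) + 1)) x r := by
  intro c hc
  have h1 : (c, x + r * (c - 1 / 2)) ∈ U := hDU hc
  obtain ⟨ε, hε, hεU⟩ := Metric.isOpen_iff.1 hU _ h1
  obtain ⟨i, hi⟩ := exists_nat_one_div_lt hε
  refine Set.mem_iUnion.2 ⟨i, fun q h2 h3 => hεU ?_⟩
  rw [Metric.mem_ball, Prod.dist_eq, max_lt_iff, Real.dist_eq, Real.dist_eq]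
  exact ⟨h2.trans hi, h3.trans hi⟩

theorem FN4 (hTE4 : TE4_stmt) (hIN2 : Pool.Agent.ZP.IN2_stmt) (hDJ4 : DJ4_stmt) (hDI4 : DI4_stmt) (hCOI : COI_stmt) : FN4_stmt := by
  intro D hD o lam η hlam hη
  have : MeasureTheory.IsProbabilityMeasure cmu := hCOI.2.1
  by_contra hne
  obtain ⟨s₀, hs₀, hcont⟩ : ∃ s₀ : ℝ, 0 < s₀ ∧ ENNReal.ofReal s₀ < cont2 (psF (10 ^ 14))
      {p : ℝ × ℝ | 0 ≤ p.1 ∧ p.1 < 1 ∧ 0 ≤ p.2 ∧ p.2 < 1 ∧
        ENNReal.ofReal η < cmu (Ln D (o + lam * p.1) (lam * (1 + p.2)))} := by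
    obtain ⟨r, hr0, hr1⟩ := ENNReal.lt_iff_exists_nnreal_btwn.1 (pos_iff_ne_zero.2 hne)
    refine ⟨r, by exact_mod_cast hr0, ?_⟩
    rw [ENNReal.ofReal_coe_nnreal]
    exact hr1
  obtain ⟨k₀, hk₀⟩ := hTE4 s₀ 9 η hs₀ (by norm_num) hη
  have hlt : (cmu.prod MeasureTheory.volume) D < ENNReal.ofReal (lam * η / (8 * 3 ^ k₀)) := by
    rw [hD]
    exact ENNReal.ofReal_pos.2 (by positivity)
  obtain ⟨U, hDU, hUo, hUv⟩ := D.exists_isOpen_lt_of_lt _ hlt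
  obtain ⟨S, hS⟩ : ∃ S : ℕ → Set (ℝ × ℝ), S = fun i : ℕ => {p : ℝ × ℝ | 0 ≤ p.1 ∧ p.1 < 1 ∧ 0 ≤ p.2 ∧
      p.2 < 1 ∧ ENNReal.ofReal η ≤ cmu (Lb U (1 / ((i : ℝ) + 1)) (o + lam * p.1) (lam * (1 + p.2)))} :=
    ⟨_, rfl⟩
  have hmonE : ∀ i : ℕ, S i ⊆ S (i + 1) := by
    intro i p hp
    rw [hS] at hp ⊢
    exact ⟨hp.1, hp.2.1, hp.2.2.1, hp.2.2.2.1, hp.2.2.2.2.trans
      (MeasureTheory.measure_mono (FN4_Lb_step U _ _ i))⟩
  have hsub : {p : ℝ × ℝ | 0 ≤ p.1 ∧ p.1 < 1 ∧ 0 ≤ p.2 ∧ p.2 < 1 ∧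
        ENNReal.ofReal η < cmu (Ln D (o + lam * p.1) (lam * (1 + p.2)))} ⊆ ⋃ i, S i := by
    rintro p ⟨h1, h2, h3, h4, h5⟩
    have h6 : ENNReal.ofReal η < ⨆ i : ℕ, cmu (Lb U (1 / ((i : ℝ) + 1)) (o + lam * p.1) (lam * (1 + p.2))) := by
      refine h5.trans_le ?_
      have h7 : Monotone fun i : ℕ => Lb U (1 / ((i : ℝ) + 1)) (o + lam * p.1) (lam * (1 + p.2)) :=
        monotone_nat_of_le_succ fun i => FN4_Lb_step U _ _ i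
      rw [← h7.measure_iUnion]
      exact MeasureTheory.measure_mono (FN4_sub hDU hUo _ _)
    obtain ⟨i, hi⟩ := lt_iSup_iff.1 h6
    refine Set.mem_iUnion.2 ⟨i, ?_⟩
    rw [hS]
    exact ⟨h1, h2, h3, h4, hi.le⟩
  obtain ⟨i, hi⟩ : ∃ i : ℕ, ENNReal.ofReal s₀ < cont2 (psF (10 ^ 14)) (S i) := by
    by_contra hc
    have h1 : ∀ i : ℕ, cont2 (psF (10 ^ 14)) (S i) ≤ ENNReal.ofReal s₀ :=
      fun i => not_lt.1 fun h => hc ⟨i, h⟩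
    have h2 := hIN2 (psF (10 ^ 14)) S (ENNReal.ofReal s₀) hmonE h1
    exact lt_irrefl _ (hcont.trans_le ((FN4_mono _ hsub).trans h2))
  obtain ⟨δ, hδ⟩ : ∃ δ : ℝ, δ = 1 / ((i : ℝ) + 1) := ⟨_, rfl⟩
  have hδ0 : 0 < δ := by rw [hδ]; positivity
  -- the levels
  obtain ⟨k', hk'⟩ : ∃ k' : ℕ, (lam + 1) / 3 ^ k' < δ / 2 := by
    obtain ⟨k', hk'⟩ := pow_unbounded_of_one_lt (2 * (lam + 1) / δ) (show (1 : ℝ) < 3 by norm_num)
    refine ⟨k', ?_⟩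
    rw [div_lt_iff₀ hδ0] at hk'
    rw [div_lt_iff₀ (by positivity)]
    linarith
  obtain ⟨k₁, hk₁⟩ : ∃ k₁ : ℕ, k₁ = max k₀ k' := ⟨_, rfl⟩
  have hk01 : k₀ ≤ k₁ := by rw [hk₁]; exact le_max_left _ _
  have hk'1 : k' ≤ k₁ := by rw [hk₁]; exact le_max_right _ _
  have hlk₁' : (lam + 1) / 3 ^ k₁ < δ / 2 := by
    refine lt_of_le_of_lt ?_ hk'
    exact div_le_div_of_nonneg_left (by positivity) (by positivity) (pow_le_pow_right₀ (by norm_num) hk'1)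
  have hlk₁ : lam / 3 ^ k₁ < δ / 2 := by
    refine lt_of_le_of_lt ?_ hlk₁'
    exact div_le_div_of_nonneg_right (by linarith) (by positivity)
  obtain ⟨n, hn⟩ : ∃ n : ℕ, n = k₁ + 61 * Nat.clog 3 k₁ + 2 := ⟨_, rfl⟩
  have h1 : (3 : ℝ) ^ (k₁ + 2) ≤ 3 ^ n := pow_le_pow_right₀ (by norm_num) (by omega)
  have hln : 4 * lam / 3 ^ n < δ / 2 := by
    refine lt_of_le_of_lt ?_ hlk₁
    calc 4 * lam / 3 ^ n ≤ 4 * lam / 3 ^ (k₁ + 2) :=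
          div_le_div_of_nonneg_left (by positivity) (by positivity) h1
      _ ≤ lam / 3 ^ k₁ := by
          rw [div_le_div_iff₀ (by positivity) (by positivity), pow_add]
          have : 0 < lam * 3 ^ k₁ := by positivity
          nlinarith
  have hln1 : 1 / 3 ^ n < δ := by
    have h2 : (1 : ℝ) / 3 ^ n ≤ (lam + 1) / 3 ^ k₁ := by
      refine (div_le_div_of_nonneg_left (by norm_num) (by positivity)
        (pow_le_pow_right₀ (by norm_num) (show k₁ ≤ n by omega))).trans ?_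
      exact div_le_div_of_nonneg_right (by linarith) (by positivity)
    linarith
  obtain ⟨X, hX, c, hc1, hc2, hc3⟩ := hDJ4 (10 ^ 14) (by norm_num) (S i) s₀ hs₀
    (fun p hp => by rw [hS] at hp; exact ⟨hp.1, hp.2.1, hp.2.2.1, hp.2.2.2.1⟩) hi n
  obtain ⟨G, W, hG1, hG2, hG3⟩ := hDI4 n k₁ X c U o lam δ η hUo hlam (by omega) (by linarith) hln1
    (fun z => by
      obtain ⟨p, hp, h3, h4⟩ := hc3 z
      rw [hS] at hp
      exact ⟨p.1, p.2, h3, h4, by rw [hδ]; exact hp.2.2.2.2⟩)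
  have h4 := hk₀ n k₁ hk01 (by omega) X c hc1 hc2 G W hG1 hG2
  have h5 : lam * η / (8 * 3 ^ k₀) ≤ lam * (∑ w, ((G w).card : ℝ)) / (2 ^ n * 3 ^ (2 * n)) := by
    have e : (3 : ℝ) ^ (2 * n) = 3 ^ (2 * n - k₀) * 3 ^ k₀ := by
      rw [← pow_add]
      congr 1
      omega
    rw [div_le_div_iff₀ (by positivity) (by positivity), e]
    have h6 : 0 < (3 : ℝ) ^ k₀ := by positivity
    have h7 : 0 < (3 : ℝ) ^ (2 * n - k₀) := by positivity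
    have h8 : 0 ≤ η * (2 ^ n * 3 ^ (2 * n - k₀)) := by positivity
    calc lam * η * (2 ^ n * (3 ^ (2 * n - k₀) * 3 ^ k₀))
        = lam * ((η * (2 ^ n * 3 ^ (2 * n - k₀))) * 3 ^ k₀) := by ring
      _ ≤ lam * ((8 * ∑ w, ((G w).card : ℝ)) * 3 ^ k₀) := by
          apply mul_le_mul_of_nonneg_left _ hlam.le
          apply mul_le_mul_of_nonneg_right _ h6.le
          linarith
      _ = lam * (∑ w, ((G w).card : ℝ)) * (8 * 3 ^ k₀) := by ring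
  have h8 := (ENNReal.ofReal_le_ofReal h5).trans hG3
  exact absurd (h8.trans_lt hUv) (lt_irrefl _)

end Pool.Agent.ZQ
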