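import Pool.Agent.helper99.ZP.Main
import Pool.Agent.helper99.ZP.OPC
import Pool.Agent.helper5.ZP.OPA
import Pool.Agent.helper5.ZP.OPB
import Pool.Agent.helper43.ZQ.COI
import Pool.Agent.helper5.ZQ.TE4
import Pool.Agent.helper41.ZQ.DJ4
import Pool.Agent.helper5.ZQ.DI4
import Pool.Agent.helper99.ZQ.FN4
import Pool.Agent.helper82.ZQ.FI4
import Pool.Agent.helper76.ZQ.FRM
import Pool.Agent.helper23.ZQ.ACM
import Pool.Agent.helper50.ZQ.ACF

set_option autoImplicit false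

/-!
# MP_3c0a64_an: assembly of the project zq
-/

namespace Pool.Agent.ZQ

open Pool.Agent

theorem fTE4 : TE4_stmt := TE4 ZP.fKST ZR.SP3 ZP.fTOT
theorem fDJ4 : DJ4_stmt := DJ4 ZP.FR2
theorem fDI4 : DI4_stmt := DI4 COI
theorem fFN4 : FN4_stmt := FN4 fTE4 ZP.IN2 fDJ4 fDI4 COI
theorem fFI4 : FI4_stmt := FI4 fFN4 ZP.GA2
theorem fACM : ACM_stmt := ACM fFI4 FRM COI
theorem fACF : ACF_stmt := ACF fACM

end Pool.Agent.ZQ
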