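import Pool.Agent.helper99.ZQ.Main

/-!
# MP_3c0a64_an: projections of σ-compact sets in the directions of the Cantor set
-/

set_option autoImplicit false

namespace Pool.Agent.ZQ

open MeasureTheory

theorem SET_compact (E : Set (ℝ × ℝ)) (hE : IsCompact E) (hpos : ∀ p ∈ E, 0 < p.2)
    (hm : Measure.mkMetric (Pool.Agent.ZP.gp (2 * 10 ^ 14)) E ≠ 0) :
    ∀ᵐ c ∂cmu, volume ((fun p : ℝ × ℝ => p.1 + p.2 * (c - 1 / 2)) '' E) ≠ 0 := by
  have hprob := COI.2.1
  -- the graph
  set G : Set (ℝ × ℝ) := {q | ∃ p ∈ E, q.2 = p.1 + p.2 * (q.1 - 1 / 2)} with hG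
  have hGc : IsClosed G := by
    have h1 : IsClosed {w : (ℝ × ℝ) × (ℝ × ℝ) | w.2 ∈ E ∧ w.1.2 = w.2.1 + w.2.2 * (w.1.1 - 1 / 2)} := by
      refine IsClosed.inter (hE.isClosed.preimage continuous_snd) ?_
      exact isClosed_eq (by fun_prop) (by fun_prop)
    -- projection along the compact E
    have h2 : G = Prod.fst '' ({w : (ℝ × ℝ) × E | w.1.2 = (w.2 : ℝ × ℝ).1 + (w.2 : ℝ × ℝ).2 * (w.1.1 - 1 / 2)}) := by
      ext q
      constructor
      · intro hq
        obtain ⟨p, hp, h3⟩ := hq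
        exact ⟨(q, ⟨p, hp⟩), h3, rfl⟩
      · intro hq
        obtain ⟨w, hw, h3⟩ := hq
        refine ⟨w.2, w.2.2, ?_⟩
        rw [← h3]
        exact hw
    rw [h2]
    have : CompactSpace E := isCompact_iff_compactSpace.mp hE
    refine isClosedMap_fst_of_compactSpace _ ?_
    exact isClosed_eq (by fun_prop) (by fun_prop)
  have hGm : MeasurableSet G := hGc.measurableSet
  have hsl : ∀ c : ℝ, Prod.mk c ⁻¹' G = (fun p : ℝ × ℝ => p.1 + p.2 * (c - 1 / 2)) '' E := by
    intro c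
    ext y
    constructor
    · intro hy
      obtain ⟨p, hp, h3⟩ := hy
      exact ⟨p, hp, h3.symm⟩
    · intro hy
      obtain ⟨p, hp, h3⟩ := hy
      exact ⟨p, hp, h3.symm⟩
  have hmeas : Measurable fun c : ℝ => volume (Prod.mk c ⁻¹' G) := measurable_measure_prodMk_left hGm
  set N : Set ℝ := {c | volume (Prod.mk c ⁻¹' G) = 0} with hN
  have hNm : MeasurableSet N := hmeas (measurableSet_singleton 0)
  have hN0 : cmu N = 0 := by
    by_contra hne
    have hD : (cmu.prod volume) (G ∩ (N ×ˢ (Set.univ : Set ℝ))) = 0 := by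
      have hDm : MeasurableSet (G ∩ (N ×ˢ (Set.univ : Set ℝ))) := hGm.inter (hNm.prod MeasurableSet.univ)
      rw [Measure.measure_prod_null hDm]
      refine Filter.Eventually.of_forall fun c => ?_
      show volume (Prod.mk c ⁻¹' (G ∩ (N ×ˢ (Set.univ : Set ℝ)))) = 0
      by_cases hc : c ∈ N
      · refine measure_mono_null ?_ hc
        intro y hy
        exact hy.1
      · have : Prod.mk c ⁻¹' (G ∩ (N ×ˢ (Set.univ : Set ℝ))) = ∅ := by
          ext y
          constructor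
          · intro hy
            exact absurd hy.2.1 hc
          · intro hy
            exact absurd hy (Set.notMem_empty y)
        rw [this]
        exact measure_empty
    have h1 := fFI4 _ hD
    apply hm
    refine measure_mono_null ?_ h1
    intro p hp
    refine ⟨hpos p hp, ?_⟩
    intro h0
    apply hne
    refine measure_mono_null ?_ h0
    intro c hc
    show (c, p.1 + p.2 * (c - 1 / 2)) ∈ G ∩ (N ×ˢ (Set.univ : Set ℝ))
    exact ⟨⟨p, hp, rfl⟩, hc, Set.mem_univ _⟩
  rw [ae_iff]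
  refine measure_mono_null ?_ hN0
  intro c hc
  show volume (Prod.mk c ⁻¹' G) = 0
  rw [hsl c]
  exact not_not.mp hc

theorem SET_sigma (E : Set (ℝ × ℝ)) (hE : IsSigmaCompact E) (hpos : ∀ p ∈ E, 0 < p.2)
    (hm : Measure.mkMetric (Pool.Agent.ZP.gp (2 * 10 ^ 14)) E ≠ 0) :
    ∀ᵐ c ∂cmu, volume ((fun p : ℝ × ℝ => p.1 + p.2 * (c - 1 / 2)) '' E) ≠ 0 := by
  obtain ⟨K, hK, hU⟩ := hE
  have h1 : ∃ n, Measure.mkMetric (Pool.Agent.ZP.gp (2 * 10 ^ 14)) (K n) ≠ 0 := by
    by_contra hcon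
    push Not at hcon
    apply hm
    rw [← hU]
    exact measure_iUnion_null hcon
  obtain ⟨n, hn⟩ := h1
  have h2 : K n ⊆ E := by
    rw [← hU]
    exact Set.subset_iUnion K n
  have h3 := SET_compact (K n) (hK n) (fun p hp => hpos p (h2 hp)) hn
  filter_upwards [h3] with c hc
  intro h4
  exact hc (measure_mono_null (Set.image_mono h2) h4)

end Pool.Agent.ZQ
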