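import Pool.Agent.helper99.ZP.Spec
import Pool.Agent.helper43.Cant.RW

/-!
# Project zq (MP_3c0a64_an): the sharp projection theorem for the Cantor measure of directions

THEOREM Z4 (contains THEOREM Z2 of project zp, which is proved). Let `μ = cmu` be the Cantor measure (`c = ∑ 2 b_i / 3^(i+1)`, `b_i` fair coins). There is `C > 0` such that for every `D ⊆ ℝ²` with `(μ × Lebesgue)(D) = 0` the set of the `(x, r)`, `r > 0`, with
`μ {c | (c, x + r (c - 1/2)) ∈ D} > 0` has measure zero for the gauge `t exp (-C (log log (1/t))^3)`, so dimension at most one. COROLLARY (AC): if `ν` is a finite measure on the plane with `ν (ball z ρ) ≤ A ρ^s`, `s > 1`, then for `μ`-almost every direction `c` the projection of `ν` by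
`(x, y) ↦ x + c y` is absolutely continuous (Marstrand's theorem for the middle third Cantor set of directions; for general direction measures of this dimension `s > 2 - log 2/log 3` is needed).

THE CHANGE against zp: in the last step (TEL) the good cells may depend on the word `w` and only a positive proportion of the words need be good.

Rules: file `Pool/Agent/<seat>/ZQ/XX.lean`, `import Pool.Agent.helper99.ZQ.Spec`, `set_option autoImplicit false`, `namespace Pool.Agent.ZQ`, the open lines of this file, `theorem XX (h : YY_stmt) ... : XX_stmt`; hypotheses: the rows named in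
the docstring. You may also import the proved files of zr and zp and use their auxiliary theorems. Auxiliary lemmas are prefixed `XX_`. No sorry, no double quotes, no `congr!`, no `convert`. A wrong or awkward statement: tell helper99 at once.
-/

set_option autoImplicit false
set_option linter.unusedVariables false

namespace Pool.Agent.ZQ

open Finset
open Pool.Agent.helper32.Cant
open Pool.Agent.GA (nrm chi ch St sg flp Psi rc ph pot rpot far nc gf ncs gfs good mj om pick pat et kap mult)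
open Pool.Agent.ZR
open Pool.Agent.ZP
open scoped ENNReal

noncomputable section

/-- fair coin tossing -/
def coin : MeasureTheory.Measure (ℕ → Bool) :=
  MeasureTheory.Measure.infinitePi fun _ : ℕ => (PMF.uniformOfFintype Bool).toMeasure

/-- the Cantor measure: the law of `∑ 2 b_i / 3^(i+1)` for fair coins `b_i` -/
def cmu : MeasureTheory.Measure ℝ :=
  coin.map fun b => Real.ofDigits fun i => cond (b i) (2 : Fin 3) 0

/-- the directions `c` for which the point over `c` of the line of `(x, r)` is in `D` -/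
def Ln (D : Set (ℝ × ℝ)) (x r : ℝ) : Set ℝ := {c | (c, x + r * (c - 1 / 2)) ∈ D}

/-- the directions `c` for which the open box of half side `δ` around the point over `c` is contained in `U` -/
def Lb (U : Set (ℝ × ℝ)) (δ x r : ℝ) : Set ℝ :=
  {c | ∀ q : ℝ × ℝ, |q.1 - c| < δ → |q.2 - (x + r * (c - 1 / 2))| < δ → q ∈ U}

/-- the gauge `exp (-C (log log (1/t))^3)`, `t exp (..)` : see `ZR.gz`, `ZP.gp` -/
def Fro (ν : MeasureTheory.Measure (ℝ × ℝ)) (s A : ℝ) : Prop :=
  ∀ (z : ℝ × ℝ) (ρ : ℝ), 0 < ρ → ν (Metric.closedBall z ρ) ≤ ENNReal.ofReal (A * ρ ^ s)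

/-- COI (short-medium): the coins. `MeasureTheory.Measure.infinitePi_pi` for the cylinder; `ept b + 1/2 = Real.ofDigits ..` is in the proof of `ept_mem` (helper43/Cant/RW); `b ↦ Real.ofDigits ..` is continuous (`Real.continuous_ofDigits`, composed with the continuous `b ↦ (i ↦ cond ..)`), so measurable
(the Borel structure of `ℕ → Bool` is the product one), and `Measure.map_apply`. Last part: `cmu` is concentrated on `cantorSet`. -/
def COI_stmt : Prop :=
  MeasureTheory.IsProbabilityMeasure coin ∧ MeasureTheory.IsProbabilityMeasure cmu ∧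
  (∀ (n : ℕ) (w : Word n), MeasurableSet {b | pre b n = w} ∧ coin {b | pre b n = w} = ENNReal.ofReal (1 / 2 ^ n)) ∧
  Measurable ept ∧ (∀ b : ℕ → Bool, Real.ofDigits (fun i => cond (b i) (2 : Fin 3) 0) = ept b + 1 / 2) ∧
  (∀ V : Set ℝ, MeasurableSet V → cmu V = coin {b | ept b + 1 / 2 ∈ V}) ∧
  ∀ V : Set ℝ, cantorSet ⊆ V → cmu V = 1

/-- TE4 (medium), from `ZP.KST_stmt`, `ZR.SP3_stmt`, `ZR.TOT_stmt`: adapt `Pool/Agent/helper99/ZP/TEL.lean` (by helper68). `k₀ ≥ k'`, `k₀ ≥ 3` and `1/(k₀ - 1) ≤ η/2`, so the total change is at most `(η/2) 2^n Wt`. Now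
`∑_w ∑_(t ∈ G w) FI_(k₁)(w, t)/L_(k₁) ≥ ∑_z a_z |W z| ≥ η 2^n Wt` (for `w ∈ W z` all the `L_(k₁) = 3^(2n-k₁)` values `t` with `(um - t).val < L_(k₁)` are in `G w`; exchange the sums; the other terms are nonnegative), and `∑_w ∑_(t ∈ G w) FI_(k₀)(w, t)/L_(k₀) ≤ (∑_w |G w|) Wt/L_(k₀)`. -/
def TE4_stmt : Prop := ∀ σ M η : ℝ, 0 < σ → 0 < M → 0 < η → ∃ k₀ : ℕ, ∀ n k₁ : ℕ, k₀ ≤ k₁ → k₁ + 61 * Nat.clog 3 k₁ ≤ n →
  ∀ (X : Type) [Fintype X] (c : Fam n X), σ * 3 ^ n ≤ Wt c →
  (∀ j ≤ n, Wip c j (M * psi (10 ^ 14) j)) →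
  ∀ (G : Word n → Finset (ZMod (3 ^ (2 * n)))) (W : X → Finset (Word n)), (∀ z, η * 2 ^ n ≤ (W z).card) →
  (∀ z, ∀ w ∈ W z, ∀ t, (um c (0, w) z - t).val < 3 ^ (2 * n - k₁) → t ∈ G w) →
  η / 2 * (2 ^ n * 3 ^ (2 * n - k₀)) ≤ ∑ w, ((G w).card : ℝ)

/-- DJ4 (medium), from `ZP.FR2_stmt`: adapt `Pool/Agent/helper76/ZP/DJ1.lean`; the same statement for a general set `S ⊆ [0, 1)²` in place of `Ps U o lam δ`. -/
def DJ4_stmt : Prop := ∀ (C₀ : ℝ), 0 < C₀ → ∀ (S : Set (ℝ × ℝ)) (s₀ : ℝ), 0 < s₀ →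
  (∀ p ∈ S, 0 ≤ p.1 ∧ p.1 < 1 ∧ 0 ≤ p.2 ∧ p.2 < 1) → ENNReal.ofReal s₀ < cont2 (psF C₀) S → ∀ n : ℕ,
  ∃ (X : Type) (_ : Fintype X) (c : Fam n X), s₀ * 3 ^ n ≤ Wt c ∧
    (∀ j ≤ n, Wip c j (9 * psi C₀ j)) ∧
    ∀ z : X, ∃ p ∈ S, |p.1 - (c.ctr z : ℝ) / 3 ^ n| ≤ 1 / 3 ^ n ∧ |(1 + p.2) - (c.R z : ℝ) / 3 ^ n| ≤ 1 / 3 ^ n

/-- DI4 (medium), from COI: adapt `Pool/Agent/helper50/ZR/DI2.lean` (use its `DI2_est`). `W z` = the words `w` for which there is `b : ℕ → Bool` with `pre b n = w` and `ept b + 1/2 ∈ Lb U δ x r` (`x = o + lam u`, `r = lam (1 + s)` for the pair `(u, s)` of `z`). `Lb` is closed (its complement is a union of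
open sets), so `ofReal η ≤ cmu (Lb ..) = coin {b | ept b + 1/2 ∈ Lb ..} ≤ ∑_(w ∈ W z) coin {pre b n = w} = |W z|/2^n`. `G w` = the `t` for which there is `z` with `w ∈ W z` and `(um c (0, w) z - t).val < 3^(2n-k₁)`. `(cmu × volume) U = ∫ volume {y | (c, y) ∈ U} d cmu(c) = ∫ .. d coin(b)` (`U` open;
`Measure.prod_apply`, `lintegral_map`), and for `b` with `pre b n = w` the slice at `ept b + 1/2` contains the `|G w|` disjoint intervals `[o + lam T/3^(2n), o + lam (T+1)/3^(2n))` (as in DI2: for `t ∈ G w` with `z` and `b'`, `pre b' n = w`: `|ept b - ept b'| ≤ 1/3^n < δ` (`ept_approx`) and the points of the interval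
are within `δ` of `x + r (ept b' + 1/2 - 1/2)` by `DI2_est`), so its measure is at least `lam |G w|/3^(2n)`. -/
def DI4_stmt : Prop := ∀ (n k₁ : ℕ) (X : Type) [Fintype X] (c : Fam n X) (U : Set (ℝ × ℝ)) (o lam δ η : ℝ), IsOpen U → 0 < lam →
  k₁ ≤ 2 * n → 4 * lam / 3 ^ n + lam / 3 ^ k₁ < δ → 1 / 3 ^ n < δ →
  (∀ z : X, ∃ u s : ℝ, |u - (c.ctr z : ℝ) / 3 ^ n| ≤ 1 / 3 ^ n ∧ |(1 + s) - (c.R z : ℝ) / 3 ^ n| ≤ 1 / 3 ^ n ∧
    ENNReal.ofReal η ≤ cmu (Lb U δ (o + lam * u) (lam * (1 + s)))) →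
  ∃ (G : Word n → Finset (ZMod (3 ^ (2 * n)))) (W : X → Finset (Word n)), (∀ z, η * 2 ^ n ≤ (W z).card) ∧
    (∀ z, ∀ w ∈ W z, ∀ t, (um c (0, w) z - t).val < 3 ^ (2 * n - k₁) → t ∈ G w) ∧
    ENNReal.ofReal (lam * (∑ w, ((G w).card : ℝ)) / (2 ^ n * 3 ^ (2 * n))) ≤ (cmu.prod MeasureTheory.volume) U

/-- FN4 (medium), from TE4, `ZP.IN2_stmt`, DJ4, DI4, COI: adapt `Pool/Agent/helper99/ZP/FN2.lean`. Suppose the content is `> s₀ > 0`. TE4 with `σ = s₀`, `M = 9`, `η/2` in place of `η`...: `k₀`. `U ⊇ D` open with `(cmu × volume) U < lam η/(8 * 3^k₀)` (`Set.exists_isOpen_lt_of_lt`; the product of the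
probability measure `cmu` and `volume` on `ℝ × ℝ` is outer regular; if needed take a locally finite measure instance). `S_i` = the pairs of `[0,1)²` with `ofReal η ≤ cmu (Lb U (1/(i+1)) ..)`. `Lb U (1/(i+1)) x r` increases with `i` with union `⊇ Ln D x r` (`U` open), so `cmu (Ln ..) > ofReal η` implies
`cmu (Lb U (1/(i+1)) ..) > ofReal η` for some `i` (`Monotone.measure_iUnion`, `lt_iSup_iff`). IN2: some `cont2 (psF ..) S_i > s₀`. DJ4, DI4 (`δ = 1/(i+1)`), TE4 with `η`: `lam (η/2) 2^n 3^(2n-k₀)/(2^n 3^(2n)) = lam η/(2 * 3^k₀) ≤ (cmu × volume) U`, a contradiction. -/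
def FN4_stmt : Prop := ∀ D : Set (ℝ × ℝ), (cmu.prod MeasureTheory.volume) D = 0 → ∀ (o lam η : ℝ), 0 < lam → 0 < η →
  cont2 (psF (10 ^ 14)) {p | 0 ≤ p.1 ∧ p.1 < 1 ∧ 0 ≤ p.2 ∧ p.2 < 1 ∧
    ENNReal.ofReal η < cmu (Ln D (o + lam * p.1) (lam * (1 + p.2)))} = 0

/-- FI4 (short-medium), from FN4, `ZP.GA2_stmt`: adapt `Pool/Agent/helper5/ZP/FI2.lean`; countable union also over `η = 1/(i+1)`. -/
def FI4_stmt : Prop := ∀ D : Set (ℝ × ℝ), (cmu.prod MeasureTheory.volume) D = 0 →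
  MeasureTheory.Measure.mkMetric (gp (2 * 10 ^ 14)) {p : ℝ × ℝ | 0 < p.2 ∧ cmu (Ln D p.1 p.2) ≠ 0} = 0

/-- FRM (short-medium): a measure with `ν (ball z ρ) ≤ A ρ^s`, `s > 1`, does not see the null sets of the gauge. `t^s ≤ t exp (-C (log log (1/t))^3)` for small `t > 0` (as in `Pool/Agent/helper5/ZP/DIM.lean`). A set of diameter `d > 0` is contained in a closed ball of radius `d`; a set of diameter zero is contained
in a closed ball of every radius `ρ > 0`, so `ν` of it is zero. So `ν t ≤ A' gp C (diam t)` for small diameters, `A' = max A 0 + 1`, and `MeasureTheory.Measure.le_mkMetric` (or directly the definition). -/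
def FRM_stmt : Prop := ∀ (C s A : ℝ), 0 < C → 1 < s → ∀ ν : MeasureTheory.Measure (ℝ × ℝ), Fro ν s A →
  ∀ P : Set (ℝ × ℝ), MeasureTheory.Measure.mkMetric (gp C) P = 0 → ν P = 0

/-- ACM (medium-long), from FI4, FRM, COI. `κ` = the kernel `c ↦ ν.map (p ↦ p.1 + p.2 (c - 1/2))` (`Kernel.map` of `Kernel.id ×ₖ Kernel.const ℝ ν`), `η` = the constant kernel `ProbabilityTheory.gaussianReal 0 1` (equivalent to `volume`: `gaussianReal_absolutelyContinuous`, `gaussianReal_absolutelyContinuous'`).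
`D = Kernel.mutuallySingularSet κ η` is measurable, its slices `D_c` have `η c D_c = 0`, so `volume D_c = 0` and `(cmu × volume) D = 0` (`Measure.measure_prod_null`). FI4 and FRM: `ν {p | 0 < p.2 ∧ cmu (Ln D p.1 p.2) ≠ 0} = 0`, and `ν {p.2 ≤ 0} = 0`, so `cmu (Ln D p.1 p.2) = 0` for `ν`-almost every `p`; by Fubini
for the measurable set `{(c, p) | (c, p.1 + p.2 (c - 1/2)) ∈ D}`: for `cmu`-almost every `c` we have `κ c D_c = ν {p | (c, ..) ∈ D} = 0`. Since `singularPart κ η c ≤ κ c` is concentrated on `D_c`, it is zero, and `κ c = (η c).withDensity (rnDeriv κ η c) ≪ volume` (`Kernel.rnDeriv_add_singularPart`). -/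
def ACM_stmt : Prop := ∀ (ν : MeasureTheory.Measure (ℝ × ℝ)), MeasureTheory.IsFiniteMeasure ν → ∀ s A : ℝ, 1 < s → Fro ν s A →
  ν {p | p.2 ≤ 0} = 0 → ∀ᵐ c ∂cmu, (ν.map (fun p : ℝ × ℝ => p.1 + p.2 * (c - 1 / 2))).AbsolutelyContinuous MeasureTheory.volume

/-- ACF (medium), from ACM: all measures and the projections `x + c y`. For `m : ℤ` let `ν_m = (ν.restrict {m ≤ p.2 < m + 1}).map (fun p => (p.1 + p.2/2, p.2 - m + 1))`: second coordinate in `[1, 2)`; `Fro ν_m s (A * 2^s)` (`A` may be replaced by `max A 0`; the preimage of a ball of radius `ρ` is contained in a ball of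
radius `2ρ`). `p.1 + c p.2 = (p.1 + p.2/2) + (p.2 - m + 1)(c - 1/2) + (m - 1)(c - 1/2)`, so the projection of `ν.restrict {..}` is a translate (by a constant depending on `c`) of the projection of `ν_m`, and `ν` is the sum over `m` of its restrictions; a countable intersection of full measure sets of `c`. -/
def ACF_stmt : Prop := ∀ (ν : MeasureTheory.Measure (ℝ × ℝ)), MeasureTheory.IsFiniteMeasure ν → ∀ s A : ℝ, 1 < s → Fro ν s A →
  ∀ᵐ c ∂cmu, (ν.map (fun p : ℝ × ℝ => p.1 + c * p.2)).AbsolutelyContinuous MeasureTheory.volume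

end

end Pool.Agent.ZQ
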